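import Pool.Agent.Work.MP_db9399_lc.Interface
import Pool.Agent.Work.MP_db9399_bg_helper63.T1

/-! THEOREM LC, block T1 (from TRF of BIG): critical sets come from near-components. A copy of the
block T1 of BIG with the structure `BL` and the threshold `(1 + g) d`. -/

set_option autoImplicit false

namespace Pool.Agent.Work.MP_db9399_lc.helper63

open Finset Classical
open Pool.Agent.Work.MP_db9399_all (nb)
open Pool.Agent.Work.MP_db9399_px (LWalk hit ee)
open Pool.Agent.Work.MP_db9399_dn (NB IsMat Tot)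
open Pool.Agent.Work.MP_db9399_sc (cut Crit Conn Env Fam Rnd Hv)
open Pool.Agent.Work.MP_db9399_bg
open Pool.Agent.Work.MP_db9399_bg.helper63

universe u

theorem stmt_T1 (hTRF : MP_db9399_bg.Stmt_TRF.{u}) : MP_db9399_lc.Stmt_T1.{u} := by
  intro g ε n B L hg hε
  obtain ⟨μ, hμ⟩ : ∃ μ, μ = min ε (min g (1 / 10)) := ⟨_, rfl⟩
  have hμ0 : 0 < μ := by
    rw [hμ]
    exact lt_min hε (lt_min hg (by norm_num))
  have hμε : μ ≤ ε := by rw [hμ]; exact min_le_left _ _
  have hμg : μ ≤ g := by rw [hμ]; exact (min_le_right _ _).trans (min_le_left _ _)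
  have hμ1 : μ ≤ 1 / 10 := by rw [hμ]; exact (min_le_right _ _).trans (min_le_right _ _)
  have hB0 : (0 : ℝ) ≤ B := Nat.cast_nonneg _
  obtain ⟨ε', hε'⟩ : ∃ ε', ε' = μ / (2 * ((B : ℝ) + 1)) := ⟨_, rfl⟩
  have hε'0 : 0 < ε' := by rw [hε']; positivity
  have hBε : 2 * B * ε' < μ := by
    have h1 : 2 * ((B : ℝ) + 1) * ε' = μ := by
      rw [hε']
      field_simp
    nlinarith
  obtain ⟨ε1, hε1, hT⟩ := hTRF n L ε' hε'0
  have hn0 : (0 : ℝ) ≤ n := Nat.cast_nonneg _
  obtain ⟨δ, hδ⟩ : ∃ δ, δ = min (1 / 1000) (ε1 / (16 * ((n : ℝ) + 1))) := ⟨_, rfl⟩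
  have hδ0 : 0 < δ := by
    rw [hδ]
    exact lt_min (by norm_num) (by positivity)
  have hδ1 : δ ≤ 1 / 1000 := by rw [hδ]; exact min_le_left _ _
  have hδ2 : 16 * ((n : ℝ) + 1) * δ ≤ ε1 := by
    have h1 : δ ≤ ε1 / (16 * ((n : ℝ) + 1)) := by rw [hδ]; exact min_le_right _ _
    rw [le_div_iff₀ (by positivity)] at h1
    linarith
  refine ⟨δ, hδ0, ?_⟩
  intro M hM
  have hM0 : (0 : ℝ) < M := by exact_mod_cast hM
  obtain ⟨σ, c1, ε0, d0, hσ, hc1, hε0, hT⟩ := hT M hM
  refine ⟨min σ (1 / (1000 * M)), c1, min ε0 (1 / 1000),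
    max d0 ⌈2 * M * ((30 + 3 * n) / ε1 + 40)⌉₊ + 1, lt_min hσ (by positivity), hc1,
    lt_min hε0 (by norm_num), ?_⟩
  intro T β _ _ P R p V _ G F d qq lab U J L' C hP hβ hM' hd hBG hLab hR hqq1 hqq2 hL'U hC hconn
  have hd1 : d0 ≤ d := le_trans (le_trans (le_max_left _ _) (Nat.le_succ _)) hd
  have hd2 : 2 * M * ((30 + 3 * n) / ε1 + 40) ≤ (d : ℝ) := by
    refine le_trans (Nat.le_ceil _) ?_
    exact_mod_cast le_trans (le_trans (le_max_right _ _) (Nat.le_succ _)) hd
  have hd3 : 0 < d := lt_of_lt_of_le (Nat.succ_pos _) hd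
  have hd0 : (0 : ℝ) < d := by exact_mod_cast hd3
  have hn1 : (1 : ℝ) ≤ n := by exact_mod_cast hP.n0
  have hp0 := hP.p0
  obtain ⟨q, hq⟩ : ∃ q, q = (n : ℝ) * p * d := ⟨_, rfl⟩
  rw [← hq] at hR hqq1 hqq2
  have hq0 : 0 < q := by rw [hq]; positivity
  obtain ⟨hCL, hC1, hC2⟩ := hC
  have hCU : C ⊆ U := hCL.trans hL'U
  have hC1' : (qq : ℝ) ≤ 2 * (C.card : ℝ) := by exact_mod_cast hC1
  have hCq : q ≤ 2 * (C.card : ℝ) := hqq1.trans hC1'
  have hCpos : (0 : ℝ) < C.card := by linarith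
  have hCne : C.Nonempty := card_pos.mp (by exact_mod_cast hCpos)
  -- a class
  obtain ⟨b0⟩ : Nonempty β := by
    obtain ⟨v, hv⟩ := hCne
    by_cases hvJ : v ∈ J
    · have h1 := (hR.jdeg v hvJ).1
      have h2 : 0 < ((nb F v ∩ U).card : ℝ) := lt_of_lt_of_le (by nlinarith) h1
      obtain ⟨w, hw⟩ := card_pos.mp (by exact_mod_cast h2 : 0 < (nb F v ∩ U).card)
      rw [mem_inter, mem_nb] at hw
      have h3 : w ∉ J := fun hwJ => hR.JJ v hvJ w hwJ hw.1
      obtain ⟨b, _⟩ := hR.UP w hw.2 h3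
      exact ⟨b⟩
    · obtain ⟨b, _⟩ := hR.UP v (hCU hv) hvJ
      exact ⟨b⟩
  have hpM : 1 ≤ p * M := by
    have h1 := hP.dn b0
    unfold den at h1
    rw [hM'] at h1
    have h2 : (1 : ℝ) ≤ ((P b0).card : ℝ) := by
      exact_mod_cast card_pos.mpr (hP.ne b0)
    rw [← h1]
    rw [div_mul_cancel₀ _ hM0.ne']
    exact h2
  have hqM : (d : ℝ) ≤ q * M := by
    rw [hq]
    have h1 : (1 : ℝ) ≤ n * (p * M) := by nlinarith
    nlinarith
  have hdeg : ∀ b v, lab v ∈ P b →
      995 / 1000 * q ≤ ((nb G v ∩ cl lab (PN P R b)).card : ℝ) := by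
    intro b v _
    have h1 := hLab.deg v (PN P R b)
    rw [hP.den_PN b] at h1
    have h2 := (abs_le.mp h1).1
    have h3 := hBG.low v
    have h4 : min ε0 (1 / 1000) ≤ 1 / 1000 := min_le_right _ _
    have h5 : min σ (1 / (1000 * M)) ≤ 1 / (1000 * M) := min_le_right _ _
    have h6 : min σ (1 / (1000 * (M : ℝ))) * d ≤ 1 / 1000 * q := by
      calc min σ (1 / (1000 * (M : ℝ))) * d ≤ 1 / (1000 * (M : ℝ)) * d :=
            mul_le_mul_of_nonneg_right h5 hd0.le
        _ ≤ 1 / (1000 * (M : ℝ)) * (q * M) := mul_le_mul_of_nonneg_left hqM (by positivity)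
        _ = 1 / 1000 * q := by field_simp
    have h7 : (999 / 1000 : ℝ) * d ≤ ((nb G v).card : ℝ) := by
      refine le_trans ?_ h3
      apply mul_le_mul_of_nonneg_right _ hd0.le
      linarith
    have h8 : 999 / 1000 * q ≤ n * p * ((nb G v).card : ℝ) := by
      rw [hq]
      have : (0 : ℝ) ≤ n * p := by positivity
      nlinarith
    linarith
  have hcut : ee F C (U \ C) ≤ 1414 / 1000 * q := by
    rw [← cut_ee]
    have h1 : (5 : ℝ) * (cut F U C : ℝ) < 7 * qq := by exact_mod_cast hC2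
    linarith
  -- the size of C
  have hCbig : (30 + 3 * n) / ε1 + 40 ≤ (C.card : ℝ) := by
    have h1 : 2 * M * ((30 + 3 * n) / ε1 + 40) ≤ 2 * M * (C.card : ℝ) := by nlinarith
    exact le_of_mul_le_mul_left h1 (by positivity)
  have hC40 : (40 : ℝ) ≤ C.card := by
    have : 0 ≤ (30 + 3 * (n : ℝ)) / ε1 := by positivity
    linarith
  have hCε : 30 + 3 * (n : ℝ) ≤ ε1 * C.card := by
    have h1 : (30 + 3 * (n : ℝ)) / ε1 ≤ C.card := by linarith
    rw [div_le_iff₀ hε1] at h1
    linarith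
  have hδC : 16 * ((n : ℝ) + 1) * (δ * C.card) ≤ ε1 * C.card := by nlinarith
  have hδC0 : 0 ≤ δ * C.card := by positivity
  have hjunk := junk_le hR hq0 hδ0.le hδ1 hCU hcut
  have hsep : Sep G lab P R (n * p * d) (ε1 * C.card) (C \ J) (C \ J) := by
    rw [← hq]
    intro b
    constructor
    · have h1 := sep1 hR hq0 hδ1 hdeg hCU hcut b
      have h2 : (((C \ J).filter (fun v => lab v ∈ P b ∧
        ((nb G v ∩ cl lab (PN P R b) ∩ (C \ J)).card : ℝ) ≤ q / 2)).card : ℝ) ≤ 3 := by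
        exact_mod_cast h1
      linarith
    · refine (sep2 hR hP.sym hq0 hδ0.le hδ1 hCU hcut b).trans ?_
      nlinarith
  have hleave : ∀ b b', R b b' →
      ee G ((C \ J) ∩ cl lab (P b)) (cl lab (P b') \ (C \ J)) ≤ ε1 * (p * d) * C.card := by
    intro b b' hbb
    refine (leave hR hq0 hδ0.le hCU hcut hbb).trans ?_
    have h1 : 1414 / 1000 * q + δ * q * C.card = (p * d) * (1414 / 1000 * n + n * (δ * C.card)) := by
      rw [hq]; ring
    rw [h1]
    have h2 : 1414 / 1000 * (n : ℝ) + n * (δ * C.card) ≤ ε1 * C.card := by nlinarith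
    have h3 : (0 : ℝ) ≤ p * d := by positivity
    calc (p * d) * (1414 / 1000 * n + n * (δ * C.card)) ≤ (p * d) * (ε1 * C.card) :=
          mul_le_mul_of_nonneg_left h2 h3
      _ = ε1 * (p * d) * C.card := by ring
  have hfew : (C.filter (fun v => ((nb G v ∩ C).card : ℝ) ≤ n * p * d / 4)).card ≤ 30 := by
    refine le_trans (few hcut hq0 (filter_subset _ _) ?_) (by norm_num)
    intro v hv
    rw [mem_filter, ← hq] at hv
    have h1 := degU hR hq0 hδ1 hdeg (hCU hv.1)
    have h2 : (nb F v ∩ U).card ≤ (nb F v ∩ (U \ C)).card + (nb G v ∩ C).card := by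
      have h7 : nb F v ∩ U ⊆ (nb F v ∩ (U \ C)) ∪ (nb G v ∩ C) := by
        intro x hx
        rw [mem_inter] at hx
        by_cases h8 : x ∈ C
        · exact mem_union_right _ (mem_inter.mpr ⟨nb_mono hR.FG v hx.1, h8⟩)
        · exact mem_union_left _ (mem_inter.mpr ⟨hx.1, mem_sdiff.mpr ⟨hx.2, h8⟩⟩)
      exact (card_le_card h7).trans (card_union_le _ _)
    have h3 : ((nb F v ∩ U).card : ℝ) ≤ ((nb F v ∩ (U \ C)).card : ℝ) + ((nb G v ∩ C).card : ℝ) := by
      exact_mod_cast h2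
    linarith [hv.2]
  have hlow : ∀ v, (1 - ε0) * d ≤ ((nb G v).card : ℝ) := by
    intro v
    refine le_trans ?_ (hBG.low v)
    apply mul_le_mul_of_nonneg_right _ hd0.le
    have := min_le_left ε0 (1 / 1000 : ℝ)
    linarith
  obtain ⟨Y, Y2, hYY, hY1, hY2, hY3⟩ := hT P R p G F d lab C (C \ J) (C \ J) hP hM' hd1 hBG.deg
    hlow (hLab.mono (min_le_left _ _) le_rfl) hR.FG hconn sdiff_subset sdiff_subset
    (by rw [← hq]; linarith) hfew hsep hsep (fun b b' h => ⟨hleave b b' h, hleave b b' h⟩)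
  have hY2e : Y2 = Y := (hYY rfl).symm
  subst hY2e
  -- sizes
  have hCp : p * (C.card / p) = (C.card : ℝ) := by field_simp
  have hsize : (C.card : ℝ) ≤ 2 * B * p * Y2.card := by
    have h1 : ∀ b, (((C \ J) ∩ cl lab (P b)).card : ℝ) ≤ p * Y2.card + 2 * ε' * C.card := by
      intro b
      have h2 := (hY2 (P b)).1
      rw [hP.dn b] at h2
      have h3 := (abs_le.mp h2).2
      have h4 := (hY3 b).1
      unfold Near at h4
      have h5 : ((C \ J) ∩ cl lab (P b)).card ≤
          (((C \ J) ∩ cl lab (P b)) \ (Y2 ∩ cl lab (P b))).card + (Y2 ∩ cl lab (P b)).card := by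
        have h6 : (C \ J) ∩ cl lab (P b) ⊆
            (((C \ J) ∩ cl lab (P b)) \ (Y2 ∩ cl lab (P b))) ∪ (Y2 ∩ cl lab (P b)) := by
          intro x hx
          by_cases h7 : x ∈ Y2 ∩ cl lab (P b)
          · exact mem_union_right _ h7
          · exact mem_union_left _ (mem_sdiff.mpr ⟨hx, h7⟩)
        exact (card_le_card h6).trans (card_union_le _ _)
      have h6 : (((C \ J) ∩ cl lab (P b)).card : ℝ) ≤
          ((((C \ J) ∩ cl lab (P b)) \ (Y2 ∩ cl lab (P b))).card : ℝ) +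
            ((Y2 ∩ cl lab (P b)).card : ℝ) := by exact_mod_cast h5
      have h7 : (0 : ℝ) ≤ (((Y2 ∩ cl lab (P b)) \ ((C \ J) ∩ cl lab (P b))).card : ℝ) := by
        positivity
      have h8 : ε' * p * (C.card / p) = ε' * C.card := by rw [mul_assoc, hCp]
      rw [h8] at h3
      linarith
    have h2 : ((C \ J).card : ℝ) ≤ ∑ b : β, (((C \ J) ∩ cl lab (P b)).card : ℝ) := by
      have h3 : C \ J ⊆ univ.biUnion (fun b => (C \ J) ∩ cl lab (P b)) := by
        intro x hx
        have hx' := mem_sdiff.mp hx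
        obtain ⟨b, hb⟩ := hR.UP x (hCU hx'.1) hx'.2
        rw [mem_biUnion]
        exact ⟨b, mem_univ _, mem_inter.mpr ⟨hx, mem_cl.mpr hb⟩⟩
      have h4 := (card_le_card h3).trans card_biUnion_le
      exact_mod_cast h4
    have h3 : ((C \ J).card : ℝ) ≤ B * (p * Y2.card + 2 * ε' * C.card) := by
      calc ((C \ J).card : ℝ) ≤ ∑ b : β, (((C \ J) ∩ cl lab (P b)).card : ℝ) := h2
        _ ≤ ∑ _b : β, (p * Y2.card + 2 * ε' * C.card) := Finset.sum_le_sum (fun b _ => h1 b)
        _ = (Fintype.card β : ℝ) * (p * Y2.card + 2 * ε' * C.card) := by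
            rw [Finset.sum_const, nsmul_eq_mul, Finset.card_univ]
        _ ≤ B * (p * Y2.card + 2 * ε' * C.card) := by
            apply mul_le_mul_of_nonneg_right
            · exact_mod_cast hβ
            · positivity
    have h4 : (C.card : ℝ) = ((C ∩ J).card : ℝ) + ((C \ J).card : ℝ) := by
      have := card_inter_add_card_sdiff C J
      exact_mod_cast this.symm
    have h5 : 2 * B * ε' * C.card ≤ 1 / 10 * C.card :=
      mul_le_mul_of_nonneg_right (hBε.le.trans hμ1) hCpos.le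
    have h6 : δ * C.card ≤ 1 / 1000 * C.card := mul_le_mul_of_nonneg_right hδ1 hCpos.le
    nlinarith
  have hX0 : (C.card : ℝ) / p ≤ 2 * B * Y2.card := by
    rw [div_le_iff₀ hp0]
    linarith
  have hYpos : (0 : ℝ) < Y2.card := by
    by_contra h
    push Not at h
    have h1 : (Y2.card : ℝ) = 0 := le_antisymm h (Nat.cast_nonneg _)
    rw [h1] at hsize
    linarith
  have hεX : ε' * (C.card / p) ≤ μ * Y2.card := by
    calc ε' * (C.card / p) ≤ ε' * (2 * B * Y2.card) := mul_le_mul_of_nonneg_left hX0 hε'0.le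
      _ = 2 * B * ε' * Y2.card := by ring
      _ ≤ μ * Y2.card := mul_le_mul_of_nonneg_right hBε.le hYpos.le
  have hεX' : ε' * (C.card / p) < g * Y2.card := by
    calc ε' * (C.card / p) ≤ ε' * (2 * B * Y2.card) := mul_le_mul_of_nonneg_left hX0 hε'0.le
      _ = 2 * B * ε' * Y2.card := by ring
      _ < μ * Y2.card := mul_lt_mul_of_pos_right hBε hYpos
      _ ≤ g * Y2.card := mul_le_mul_of_nonneg_right hμg hYpos.le
  refine ⟨Y2, ?_, ?_, ?_, ?_⟩
  · by_contra hlt
    push Not at hlt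
    have h1 := hBG.nsc Y2 hlt
    have h2 := (hY1 univ univ).1
    have hcl : cl lab (univ : Finset T) = univ := by
      ext x; simp [mem_cl]
    have hdu : den (univ : Finset T) = 1 := by
      unfold den
      rw [Finset.card_univ, hM']
      exact div_self hM0.ne'
    rw [hcl, hdu, inter_univ] at h2
    have h3 : ∑ v ∈ Y2, ((nb G v \ Y2).card : ℝ) = ee G Y2 (univ \ Y2) := by
      unfold ee
      apply Finset.sum_congr rfl
      intro v _
      congr 2
      ext x
      simp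
    rw [h3] at h1
    have h4 : ε' * (1 * 1) * d * (C.card / p) = d * (ε' * (C.card / p)) := by ring
    rw [h4] at h2
    have h5 : (d : ℝ) * (ε' * (C.card / p)) < d * (g * Y2.card) :=
      mul_lt_mul_of_pos_left hεX' hd0
    nlinarith
  · intro P' Q'
    refine (hY1 P' Q').1.trans ?_
    have h1 : ε' * (den P' * den Q') * d * (C.card / p) =
        (den P' * den Q' * d) * (ε' * (C.card / p)) := by ring
    have h2 : ε * (den P' * den Q') * d * Y2.card = (den P' * den Q' * d) * (ε * Y2.card) := by ring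
    rw [h1, h2]
    have h3 : 0 ≤ den P' * den Q' * d := mul_nonneg (mul_nonneg (den_nonneg _) (den_nonneg _)) hd0.le
    apply mul_le_mul_of_nonneg_left _ h3
    exact hεX.trans (mul_le_mul_of_nonneg_right hμε hYpos.le)
  · intro P'
    refine (hY2 P').1.trans ?_
    have h1 : ε' * den P' * (C.card / p) = den P' * (ε' * (C.card / p)) := by ring
    have h2 : ε * den P' * Y2.card = den P' * (ε * Y2.card) := by ring
    rw [h1, h2]
    apply mul_le_mul_of_nonneg_left _ (den_nonneg _)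
    exact hεX.trans (mul_le_mul_of_nonneg_right hμε hYpos.le)
  · intro b
    have h1 : (C \ J) ∩ cl lab (P b) = C ∩ cl lab (P b) := by
      ext x
      rw [mem_inter, mem_inter, mem_sdiff, mem_cl]
      constructor
      · rintro ⟨⟨h1, _⟩, h2⟩
        exact ⟨h1, h2⟩
      · rintro ⟨h1, h2⟩
        exact ⟨⟨h1, fun hJ => hR.JP x hJ b h2⟩, h2⟩
    have h2 := (hY3 b).1
    rw [h1] at h2
    unfold Near at h2 ⊢
    refine h2.trans ?_
    have h3 : ε' * C.card = p * (ε' * (C.card / p)) := by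
      rw [mul_left_comm, hCp]
    have h4 : ε * p * Y2.card = p * (ε * Y2.card) := by ring
    rw [h3, h4]
    apply mul_le_mul_of_nonneg_left _ hp0.le
    exact hεX.trans (mul_le_mul_of_nonneg_right hμε hYpos.le)

end Pool.Agent.Work.MP_db9399_lc.helper63
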